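import Pool.Agent.helper1.CD.Spec

/-! # Row cd:CHD (MP_2e0e07_nt, project CD): Chebotarev's density theorem -/

set_option autoImplicit false

open NumberField IsDedekindDomain Complex Pool.Agent.CH Pool.Agent.GK

namespace Pool.Agent.CD

theorem CHD_split (hDSL : DSL_stmt) (K : Type) [Field K] [NumberField K] (s : ℝ) (hs : 1 < s) (S A T : Set (Pl K))
    (hT : T.Finite) (h : S \ T ⊆ A) : DS K S s ≤ DS K A s + T.ncard := by
  obtain ⟨-, hm, ha, hf⟩ := hDSL K s hs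
  have h1 : S = (S \ T) ∪ (S ∩ T) := (Set.diff_union_inter S T).symm
  have h2 : Disjoint (S \ T) (S ∩ T) := Set.disjoint_left.2 fun v hv hv' => hv.2 hv'.2
  have h3 : DS K S s = DS K (S \ T) s + DS K (S ∩ T) s := by
    have h4 := ha _ _ h2
    rw [← h1] at h4
    exact h4
  rw [h3]
  exact add_le_add (hm _ _ h) ((hm _ _ Set.inter_subset_right).trans (hf T hT))

theorem CHD (hLOW : LOW_stmt) (hUPP : UPP_stmt) (hUNQ : UNQ_stmt) (hDSL : DSL_stmt) : CHD_stmt := by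
  intro K L _ _ _ _ _ _ X hX
  obtain ⟨S, hS⟩ : ∃ S : Set (Pl K), S = {v | ∃ (P : Ideal (𝓞 L)) (σ : L ≃ₐ[K] L), P.IsPrime ∧
    P.under (𝓞 K) = v.asIdeal ∧ IsFr σ P (nv K v) ∧ σ ∈ X} := ⟨_, rfl⟩
  rw [← hS]
  have hlow := hLOW K L X
  have hupp := hUPP K L X
  obtain ⟨c, hc⟩ : ∃ c : ℝ, c = (Nat.card X : ℝ) / Module.finrank K L := ⟨_, rfl⟩
  rw [← hc] at hlow hupp ⊢
  obtain ⟨T, hT⟩ := hUNQ K L
  have h1 : (⋃ σ ∈ X, Fp K L σ) ⊆ S := by
    intro v hv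
    obtain ⟨σ, hσ, hv⟩ := Set.mem_iUnion₂.1 hv
    obtain ⟨-, P, hP, hu, hf⟩ := hv
    rw [hS]
    exact ⟨P, σ, hP, hu, hf, hσ⟩
  have h2 : S \ (T : Set (Pl K)) ⊆ Ap K L X := by
    rintro v ⟨hv, hvT⟩
    rw [hS] at hv
    obtain ⟨P, σ, hP, hu, hf, hσ⟩ := hv
    intro P' g hP' hu' hf'
    obtain ⟨τ, hτ⟩ := isConj_iff.1 (hT v (fun h => hvT (Finset.mem_coe.2 h)) P P' σ g hP hP' hu hu' hf hf')
    rw [← hτ]
    exact hX σ hσ τ
  rw [Metric.tendsto_nhdsWithin_nhds]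
  intro ε hε
  obtain ⟨δ1, hδ1, H1⟩ := hlow (ε / 2) (by linarith)
  obtain ⟨δ2, hδ2, H2⟩ := hupp (ε / 4) (by linarith)
  obtain ⟨N, hN⟩ : ∃ N : ℝ, N = (((T : Set (Pl K)).ncard : ℕ) : ℝ) := ⟨_, rfl⟩
  have hN0 : 0 ≤ N := by rw [hN]; positivity
  refine ⟨min (min δ1 δ2) (Real.exp (-(4 * N / ε + 1))), lt_min (lt_min hδ1 hδ2) (Real.exp_pos _), ?_⟩
  intro s hs hd
  have hs1 : 1 < s := hs
  rw [Real.dist_eq, abs_of_pos (by linarith), lt_min_iff, lt_min_iff] at hd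
  obtain ⟨⟨d1, d2⟩, d3⟩ := hd
  have k1 := H1 s hs1 (by linarith)
  have k2 := H2 s hs1 (by linarith)
  have hlog : Real.log (s - 1) < -(4 * N / ε + 1) := (Real.log_lt_iff_lt_exp (by linarith)).2 d3
  obtain ⟨l, hl⟩ : ∃ l : ℝ, l = -Real.log (s - 1) := ⟨_, rfl⟩
  rw [← hl] at k1 k2 ⊢
  have hl1 : 4 * N / ε + 1 < l := by rw [hl]; linarith
  have hq : 0 ≤ 4 * N / ε := by positivity
  have hl0 : 0 < l := by linarith
  have hNl : N ≤ ε / 4 * l := by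
    have h3 : 4 * N / ε * ε = 4 * N := by field_simp
    nlinarith
  have m1 : (c - ε / 2) * l ≤ DS K S s := k1.trans ((hDSL K s hs1).2.1 _ _ h1)
  have m2 : DS K S s ≤ (c + ε / 4) * l + N := by
    have h3 := CHD_split hDSL K s hs1 S (Ap K L X) (T : Set (Pl K)) T.finite_toSet h2
    rw [← hN] at h3
    linarith
  rw [Real.dist_eq, abs_lt]
  constructor
  · have h3 : c - ε / 2 ≤ DS K S s / l := (le_div_iff₀ hl0).2 m1
    linarith
  · have h3 : DS K S s / l ≤ c + ε / 2 := by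
      rw [div_le_iff₀ hl0]
      linarith
    linarith

end Pool.Agent.CD
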